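import Pool.Agent.Q292.MBP.Asym

/-!
# Majority bootstrap percolation on the distance-`k` hypercube: the second-order term

The definitions (`Q`, `Nb`, `deg`, `step`, `Percolates`, `prob`, `pc`) are in
`Pool/Agent/Q292/MBP/Def.lean`.
-/

set_option autoImplicit false

namespace Pool.Agent.Results.MP_b06f47_pr.SecondOrder

open Filter Q292.MBP

/-- For every `k ≥ 2` there are constants `0 < c ≤ C` such that for all large `n`
`1/2 - C √(log n) / n^{k/2} ≤ p_c(Q_{k,n}, N/2) ≤ 1/2 - c √(log n) / n^{k/2}`. -/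
theorem result (k : ℕ) (hk : 2 ≤ k) : ∃ c C : ℝ, 0 < c ∧ c ≤ C ∧ ∀ᶠ n : ℕ in atTop,
    1 / 2 - C * Real.sqrt (Real.log n) / (n : ℝ) ^ ((k : ℝ) / 2) ≤
      pc k n ((deg k n : ℝ) / 2) ∧
    pc k n ((deg k n : ℝ) / 2) ≤
      1 / 2 - c * Real.sqrt (Real.log n) / (n : ℝ) ^ ((k : ℝ) / 2) := by
  obtain ⟨C, _, h1⟩ := lower k hk
  obtain ⟨c, hc0, h2⟩ := upper k hk
  refine ⟨c, max c C, hc0, le_max_left _ _, ?_⟩
  filter_upwards [h1, h2] with n g1 g2
  refine ⟨?_, g2⟩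
  refine le_trans ?_ g1
  have h3 : C * Real.sqrt (Real.log n) / (n : ℝ) ^ ((k : ℝ) / 2) ≤
      max c C * Real.sqrt (Real.log n) / (n : ℝ) ^ ((k : ℝ) / 2) := by
    apply div_le_div_of_nonneg_right _ (by positivity)
    exact mul_le_mul_of_nonneg_right (le_max_right _ _) (Real.sqrt_nonneg _)
  linarith

end Pool.Agent.Results.MP_b06f47_pr.SecondOrder
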